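import Pool.Agent.Helper50.BL.Stmts
import Pool.Agent.Helper50.BL.Base

namespace Pool.Agent.Helper50.BL

open Finset
open scoped Classical

theorem pot_gap (x y : ℝ) (hx : 0 < x) (hxy : x ≤ 3 / 4 * y) :
    1 / 4 ≤ Real.log y - Real.log x := by
  have hy : 0 < y := by linarith
  have h1 := Real.one_sub_inv_le_log_of_pos (div_pos hy hx)
  rw [Real.log_div hy.ne' hx.ne', inv_div] at h1
  have h2 : x / y ≤ 3 / 4 := by rw [div_le_iff₀ hy]; exact hxy
  linarith

/-- the potential as a function of real variables -/
noncomputable def potF (Z T K s : ℝ) : ℝ :=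
  2 * Z + 4 * T * Real.log (min s K) + 16 * (1 / Real.log K - 1 / Real.log (max s K))

theorem pot_log (x : ℝ) (n : ℕ) (h : x = n) : 0 ≤ Real.log x := by
  rw [h]
  exact Real.log_natCast_nonneg n

theorem st_POT : ST_POT := by
  intro p t n1 Z0 hp hn hZ hT
  set T := tau0 p t n1 with hTdef
  set Kn : ℕ := n1 ^ (16 * p) with hKn
  set K : ℝ := (Kn : ℝ) with hK
  have hKn16 : 2 ^ 16 ≤ Kn := by
    calc 2 ^ 16 ≤ n1 ^ 16 := Nat.pow_le_pow_left hn 16
      _ ≤ n1 ^ (16 * p) := Nat.pow_le_pow_right (by omega) (by omega)
  have hK16 : (2 : ℝ) ^ 16 ≤ K := by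
    rw [hK]
    exact_mod_cast hKn16
  have hK0 : 0 < K := by linarith [show (0 : ℝ) < 2 ^ 16 by norm_num]
  have hlogK : 1 ≤ Real.log K := by
    have h1 : Real.log ((2 : ℝ) ^ 16) ≤ Real.log K := Real.log_le_log (by norm_num) hK16
    rw [Real.log_pow] at h1
    have := Real.log_two_gt_d9
    push_cast at h1
    linarith
  have hlog2 : (1 : ℝ) / 4 ≤ Real.log 2 := by
    have := Real.log_two_gt_d9
    linarith
  have hmin0 : ∀ s : ℕ, 0 ≤ Real.log (min (s : ℝ) K) := by
    intro s
    apply pot_log _ (min s Kn)
    rw [hK]
    push_cast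
    rfl
  have hmax1 : ∀ s : ℕ, Real.log K ≤ Real.log (max (s : ℝ) K) := fun s =>
    Real.log_le_log hK0 (le_max_right _ _)
  have hM : ∀ s : ℕ, 0 ≤ 1 / Real.log K - 1 / Real.log (max (s : ℝ) K) := by
    intro s
    have := one_div_le_one_div_of_le (by linarith) (hmax1 s)
    linarith
  refine ⟨fun s => potF Z0 T K s, ?_, ?_, ?_⟩
  · intro s hs
    show _ ≤ potF Z0 T K s
    unfold potF
    have h1 := hmin0 s
    have h2 := hM s
    have h3 : (s : ℝ) ≤ Z0 := by exact_mod_cast hs.le
    have h4 : (0 : ℝ) ≤ s := Nat.cast_nonneg s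
    nlinarith [mul_nonneg (by linarith : (0 : ℝ) ≤ T) h1]
  · intro s s' hs hs'
    have hs2 : (2 : ℝ) ≤ s := by exact_mod_cast hZ.trans hs
    have hlogs : Real.log 2 ≤ Real.log s := Real.log_le_log (by norm_num) hs2
    have hT0 : 0 ≤ T := by linarith
    show tau p t n1 s + potF Z0 T K s' ≤ potF Z0 T K s
    unfold tau potF
    split_ifs with hsK
    · -- s < K
      have hsK' : (s : ℝ) < K := by rw [hK]; exact_mod_cast hsK
      have hs'K : (s' : ℝ) < K := by linarith
      rw [max_eq_right hsK'.le, max_eq_right hs'K.le, min_eq_left hsK'.le, min_eq_left hs'K.le]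
      change T + _ ≤ _
      rcases Nat.eq_zero_or_pos s' with h0 | h0
      · rw [h0, Nat.cast_zero, Real.log_zero]
        nlinarith
      · have h1 := pot_gap (s' : ℝ) s (by exact_mod_cast h0) hs'
        nlinarith
    · have hsK' : K ≤ (s : ℝ) := by
        rw [hK]
        exact_mod_cast not_lt.1 hsK
      have hlKs : Real.log K ≤ Real.log s := Real.log_le_log hK0 hsK'
      have hls1 : 1 ≤ Real.log s := by linarith
      rw [min_eq_right hsK', max_eq_left hsK']
      have hsq : 1 / Real.log s ^ 2 ≤ 1 := by
        rw [div_le_one (by positivity)]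
        nlinarith
      have hinv : 1 / Real.log s ≤ 1 / Real.log K := one_div_le_one_div_of_le (by linarith) hlKs
      rcases le_or_gt K (s' : ℝ) with hs'K | hs'K
      · rw [min_eq_right hs'K, max_eq_left hs'K]
        have h1 := pot_gap (s' : ℝ) s (by linarith) hs'
        have hls' : 1 ≤ Real.log s' := by
          have := Real.log_le_log hK0 hs'K
          linarith
        have h2 : 1 / Real.log s ^ 2 ≤ 16 * (1 / Real.log s' - 1 / Real.log s) := by
          have e1 : 1 / Real.log s' - 1 / Real.log s
              = (Real.log s - Real.log s') / (Real.log s' * Real.log s) := by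
            field_simp
          rw [e1, ← mul_div_assoc, div_le_div_iff₀ (by positivity) (by positivity)]
          nlinarith [mul_nonneg (by linarith : (0 : ℝ) ≤ Real.log s' - 1)
            (by linarith : (0 : ℝ) ≤ Real.log s - 1), mul_pos (by linarith : 0 < Real.log s')
            (by linarith : 0 < Real.log s)]
        linarith
      · rw [min_eq_left hs'K.le, max_eq_right hs'K.le]
        rcases Nat.eq_zero_or_pos s' with h0 | h0
        · rw [h0, Nat.cast_zero, Real.log_zero]
          nlinarith
        · have h1 := pot_gap (s' : ℝ) s (by exact_mod_cast h0) hs'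
          rcases le_or_gt (1 / 8) (Real.log K - Real.log s') with h2 | h2
          · nlinarith
          · have h3 : 1 / 8 ≤ Real.log s - Real.log K := by linarith
            have h4 : Real.log s' ≤ Real.log K :=
              Real.log_le_log (by exact_mod_cast h0) hs'K.le
            have h5 : 1 / Real.log s ^ 2 ≤ 16 * (1 / Real.log K - 1 / Real.log s) := by
              have e1 : 1 / Real.log K - 1 / Real.log s
                  = (Real.log s - Real.log K) / (Real.log K * Real.log s) := by
                field_simp
              rw [e1, ← mul_div_assoc, div_le_div_iff₀ (by positivity) (by positivity)]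
              nlinarith [mul_pos (by linarith : 0 < Real.log K) (by linarith : 0 < Real.log s)]
            nlinarith [mul_nonneg hT0 (sub_nonneg.2 h4)]
  · intro s
    show potF Z0 T K s ≤ _
    unfold potF
    have h1 : Real.log (min (s : ℝ) K) ≤ Real.log K := by
      rcases Nat.eq_zero_or_pos s with h0 | h0
      · rw [h0, Nat.cast_zero, min_eq_left hK0.le, Real.log_zero]
        linarith
      · exact Real.log_le_log (lt_min (by exact_mod_cast h0) hK0) (min_le_right _ _)
    have h2 : Real.log K = 16 * p * Real.log n1 := by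
      rw [hK, hKn]
      push_cast
      rw [Real.log_pow]
      push_cast
      ring
    have h3 : 1 / Real.log K ≤ 1 := by rw [div_le_one (by linarith)]; exact hlogK
    have h4 : 0 ≤ 1 / Real.log (max (s : ℝ) K) := by
      have := hmax1 s
      apply div_nonneg <;> linarith
    have h5 : T * Real.log (min (s : ℝ) K) ≤ T * (16 * p * Real.log n1) := by
      rw [← h2]
      exact mul_le_mul_of_nonneg_left h1 (by linarith)
    nlinarith

end Pool.Agent.Helper50.BL
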