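import Pool.Agent.Helper50.BL.Stmts
import Pool.Agent.Helper50.BL.Base

namespace Pool.Agent.Helper50.BL

open Finset
open scoped Classical

theorem rnd_log (z : ℝ) (hz : 0 ≤ z) : Real.log (1 + z) ≤ Real.sqrt z := by
  rw [Real.log_le_iff_le_exp (by linarith)]
  set s := Real.sqrt z with hs
  have hs0 : 0 ≤ s := Real.sqrt_nonneg z
  have hz2 : z = s ^ 2 := (Real.sq_sqrt hz).symm
  have h1 := Real.sum_le_exp_of_nonneg hs0 4
  simp only [Finset.sum_range_succ, Finset.sum_range_zero, Nat.factorial] at h1
  norm_num at h1
  rw [hz2]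
  nlinarith [mul_nonneg hs0 (sq_nonneg (s - 3 / 2)), mul_nonneg hs0 hs0]

theorem rnd_cst (κ z : ℝ) (n : ℤ) (hκ : 0 ≤ κ) (hz : 1 ≤ z) (hn : |(n : ℝ)| ≤ z) :
    cst κ n ≤ (κ + 2) * Real.sqrt z := by
  have h1 : 1 ≤ Real.sqrt z := Real.one_le_sqrt.2 hz
  unfold cst
  split_ifs
  · positivity
  · have h2 := rnd_log |(n : ℝ)| (abs_nonneg _)
    have h3 : Real.sqrt |(n : ℝ)| ≤ Real.sqrt z := Real.sqrt_le_sqrt hn
    nlinarith

theorem rnd_item (κ Q thr l : ℝ) (ht : 0 < thr) (htQ : thr ≤ Q) (hκ : 0 ≤ κ) (h : thr ≤ |l|) :
    Int.fract (l / Q) * cst κ (⌊l / Q⌋ + 1) + (1 - Int.fract (l / Q)) * cst κ ⌊l / Q⌋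
      ≤ e1 κ Q thr |l| := by
  have hQ : 0 < Q := lt_of_lt_of_le ht htQ
  unfold e1
  rw [if_neg (not_lt.2 h)]
  have hlog2 : Real.log (1 + 1) ≤ 1 := by
    have := Real.log_le_sub_one_of_pos (x := 1 + 1) (by norm_num)
    linarith
  have habs : |l| / Q = |l / Q| := by rw [abs_div, abs_of_pos hQ]
  set x := l / Q with hx
  split_ifs with h1
  · have hx1 : |x| < 1 := by rw [← habs, div_lt_one hQ]; exact h1
    rw [abs_lt] at hx1
    rw [habs]
    rcases le_or_gt 0 x with h0 | h0
    · have hf : ⌊x⌋ = 0 := Int.floor_eq_zero_iff.2 ⟨h0, hx1.2⟩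
      have hfr : Int.fract x = x := by rw [Int.fract, hf]; simp
      rw [hf, hfr, abs_of_nonneg h0]
      have c0 : cst κ 0 = 0 := by simp [cst]
      have c1 : cst κ (0 + 1) = κ + 2 * Real.log (1 + 1) := by simp [cst]
      rw [c0, c1]
      nlinarith
    · have hf : ⌊x⌋ = -1 := by
        rw [Int.floor_eq_iff]
        push_cast
        constructor <;> linarith [hx1.1]
      have hfr : Int.fract x = x + 1 := by rw [Int.fract, hf]; push_cast; ring
      rw [hf, hfr, abs_of_neg h0]
      have c0 : cst κ (-1 + 1) = 0 := by simp [cst]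
      have c1 : cst κ (-1) = κ + 2 * Real.log (1 + 1) := by simp [cst]
      rw [c0, c1]
      nlinarith
  · have hx1 : 1 ≤ |x| := by rw [← habs, le_div_iff₀ hQ]; linarith
    have e1 : 2 * |l| / Q = 2 * |x| := by rw [← habs]; ring
    rw [e1]
    have hfl := Int.floor_le x
    have hfl2 := Int.lt_floor_add_one x
    have f0 := Int.fract_nonneg x
    have f1 := (Int.fract_lt_one x).le
    have a1 : |((⌊x⌋ : ℤ) : ℝ)| ≤ 2 * |x| := by
      rw [abs_le]
      have := le_abs_self x
      have := neg_abs_le x
      constructor <;> linarith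
    have a2 : |((⌊x⌋ + 1 : ℤ) : ℝ)| ≤ 2 * |x| := by
      push_cast
      rw [abs_le]
      have := le_abs_self x
      have := neg_abs_le x
      constructor <;> linarith
    have b1 := rnd_cst κ (2 * |x|) ⌊x⌋ hκ (by linarith) a1
    have b2 := rnd_cst κ (2 * |x|) (⌊x⌋ + 1) hκ (by linarith) a2
    nlinarith [mul_le_mul_of_nonneg_left b2 f0,
      mul_le_mul_of_nonneg_left b1 (sub_nonneg.2 f1)]

theorem st_RND (hH : ST_HOEF) : ST_RND := by
  intro J K _ _ _ I lam Q thr κ t v c sg pen ht htQ hκ ht0 hv hsg hc hc2 hc1 hpen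
  have hQ : 0 < Q := lt_of_lt_of_le ht htQ
  set act : J → Prop := fun i => i ∈ I ∧ thr ≤ |lam i| with hact
  set fr : J → ℝ := fun i => Int.fract (lam i / Q) with hfr
  set mu : J → Bool → ℝ := fun i b => if act i then (if b then fr i else 1 - fr i)
    else (if b then 0 else 1) with hmu
  have fr0 : ∀ i, 0 ≤ fr i := fun i => Int.fract_nonneg _
  have fr1 : ∀ i, fr i ≤ 1 := fun i => (Int.fract_lt_one _).le
  have hW : IsW mu := by
    constructor
    · intro i b
      have := fr0 i
      have := fr1 i
      simp only [hmu]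
      split_ifs <;> linarith
    · intro i
      rw [Fintype.sum_bool]
      simp only [hmu]
      by_cases ha : act i <;> simp [ha]
  set r : (J → Bool) → J → ℤ := fun w i => if act i then ⌊lam i / Q⌋ + (if w i then 1 else 0)
    else 0 with hr
  -- the error
  have hdev : ∀ w i, act i → Q * (r w i : ℝ) - lam i = Q * ((if w i then 1 else 0) - fr i) := by
    intro w i hi
    simp only [hr, hfr, hi, if_true]
    have e1 : (lam i / Q) = ⌊lam i / Q⌋ + Int.fract (lam i / Q) := (Int.floor_add_fract _).symm
    have e2 : lam i = Q * (⌊lam i / Q⌋ + Int.fract (lam i / Q)) := by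
      rw [← e1]; field_simp
    push_cast
    conv_lhs => rw [e2]
    have e3 : Q * (↑⌊lam i / Q⌋ + Int.fract (lam i / Q)) / Q = lam i / Q := by
      rw [← e2]
    rw [e3]
    split_ifs <;> ring
  have herr : ∀ w, ∀ i ∈ I, |Q * (r w i : ℝ) - lam i| ≤ Q := by
    intro w i hi
    by_cases ha : act i
    · rw [hdev w i ha, abs_mul, abs_of_pos hQ]
      have := fr0 i
      have := fr1 i
      have h1 : |(if w i then (1 : ℝ) else 0) - fr i| ≤ 1 := by
        rw [abs_le]
        split_ifs <;> constructor <;> linarith
      nlinarith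
    · have h1 : |lam i| < thr := by
        by_contra h2
        exact ha ⟨hi, not_lt.1 h2⟩
      simp only [hr, ha, if_false]
      simp only [Int.cast_zero, mul_zero, zero_sub, abs_neg]
      linarith
  -- the costs
  have hcost : ∀ i ∈ I, Ex mu (fun w => cst κ (r w i)) ≤ e1 κ Q thr |lam i| := by
    intro i hi
    by_cases ha : act i
    · have h1 : (fun w : J → Bool => cst κ (r w i))
          = fun w => (fun b : Bool => cst κ (⌊lam i / Q⌋ + (if b then 1 else 0))) (w i) := by
        funext w
        simp only [hr, ha, if_true]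
      rw [h1, Ex_coord hW i (fun b : Bool => cst κ (⌊lam i / Q⌋ + (if b then 1 else 0))),
        Fintype.sum_bool]
      simp only [hmu, ha, if_true, Bool.false_eq_true, if_false, add_zero]
      exact rnd_item κ Q thr (lam i) ht htQ hκ ha.2
    · have h1 : (fun w : J → Bool => cst κ (r w i)) = fun _ => 0 := by
        funext w
        simp only [hr, ha, if_false]
        simp [cst]
      have h2 : |lam i| < thr := by
        by_contra h2
        exact ha ⟨hi, not_lt.1 h2⟩
      rw [h1, Ex_const hW]
      unfold e1
      rw [if_pos h2]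
  -- the tests
  set f : K → J → Bool → ℝ := fun k i b =>
    if act i then c k i * Q * ((if b then 1 else 0) - fr i) else 0 with hf
  have htest : ∀ k w, |∑ i ∈ I, c k i * (Q * (r w i : ℝ) - lam i)|
      ≤ |∑ i, f k i (w i)| + t * thr := by
    intro k w
    have h1 : ∑ i ∈ I, c k i * (Q * (r w i : ℝ) - lam i)
        = ∑ i, f k i (w i) + ∑ i ∈ I, (if act i then 0 else c k i * (-lam i)) := by
      have h2 : ∑ i, f k i (w i) = ∑ i ∈ I, f k i (w i) := by
        symm
        apply Finset.sum_subset (Finset.subset_univ I)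
        intro i _ hi
        have : ¬ act i := fun h => hi h.1
        simp only [hf, this, if_false]
      rw [h2, ← Finset.sum_add_distrib]
      refine Finset.sum_congr rfl fun i hi => ?_
      by_cases ha : act i
      · rw [hdev w i ha]
        simp only [hf, ha, if_true]
        ring
      · simp only [hf, hr, ha, if_false]
        push_cast
        ring
    rw [h1]
    refine (abs_add_le _ _).trans (add_le_add le_rfl ?_)
    refine (Finset.abs_sum_le_sum_abs _ _).trans ?_
    calc ∑ i ∈ I, |if act i then 0 else c k i * (-lam i)|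
        ≤ ∑ i ∈ I, c k i * thr := by
          refine Finset.sum_le_sum fun i hi => ?_
          split_ifs with ha
          · rw [abs_zero]; exact mul_nonneg (hc k i) ht.le
          · have h2 : |lam i| < thr := by
              by_contra h2
              exact ha ⟨hi, not_lt.1 h2⟩
            rw [abs_mul, abs_neg, abs_of_nonneg (hc k i)]
            exact mul_le_mul_of_nonneg_left h2.le (hc k i)
      _ = (∑ i ∈ I, c k i) * thr := by rw [Finset.sum_mul]
      _ ≤ t * thr := mul_le_mul_of_nonneg_right (hc1 k) ht.le
  have hmean : ∀ k i, ∑ a, mu i a * f k i a = 0 := by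
    intro k i
    rw [Fintype.sum_bool]
    by_cases ha : act i
    · simp only [hmu, hf, ha, if_true, Bool.false_eq_true, if_false]
      ring
    · simp only [hf, ha, if_false, mul_zero, add_zero]
  have hs2 : ∀ k, ∑ i, (if act i then c k i * Q else 0) ^ 2 ≤ Q ^ 2 * sg k := by
    intro k
    have h1 : ∑ i, (if act i then c k i * Q else 0) ^ 2
        = ∑ i ∈ I, (if act i then c k i * Q else 0) ^ 2 := by
      symm
      apply Finset.sum_subset (Finset.subset_univ I)
      intro i _ hi
      have : ¬ act i := fun h => hi h.1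
      simp [this]
    rw [h1]
    calc ∑ i ∈ I, (if act i then c k i * Q else 0) ^ 2 ≤ ∑ i ∈ I, Q ^ 2 * c k i ^ 2 := by
          refine Finset.sum_le_sum fun i _ => ?_
          split_ifs
          · apply le_of_eq; ring
          · have := sq_nonneg (c k i)
            have := sq_nonneg Q
            nlinarith
      _ = Q ^ 2 * ∑ i ∈ I, c k i ^ 2 := by rw [Finset.mul_sum]
      _ ≤ Q ^ 2 * sg k := mul_le_mul_of_nonneg_left (hc2 k) (sq_nonneg Q)
  have hprob : ∀ k, Pr mu (fun w => v + t * thr < |∑ i ∈ I, c k i * (Q * (r w i : ℝ) - lam i)|)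
      ≤ if (∃ i ∈ I, c k i ≠ 0 ∧ thr ≤ |lam i|) then
        2 * Real.exp (-(2 * v ^ 2 / (Q ^ 2 * sg k))) else 0 := by
    intro k
    split_ifs with hk
    · have h1 := hH J Bool mu hW (f k) (fun i => if act i then -(c k i * Q * fr i) else 0)
        (fun i => if act i then c k i * Q else 0) (Q ^ 2 * sg k) v (by
          intro i a
          have := fr0 i
          have := fr1 i
          have hcQ : 0 ≤ c k i * Q := mul_nonneg (hc k i) hQ.le
          simp only [hf]
          split_ifs
          · constructor <;> nlinarith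
          · constructor <;> nlinarith
          · simp) (hmean k) (hs2 k) (mul_pos (pow_pos hQ 2) (hsg k)) hv.le
      have h2 := hH J Bool mu hW (fun i a => -(f k i a))
        (fun i => if act i then c k i * Q * fr i - c k i * Q else 0)
        (fun i => if act i then c k i * Q else 0) (Q ^ 2 * sg k) v (by
          intro i a
          have := fr0 i
          have := fr1 i
          have hcQ : 0 ≤ c k i * Q := mul_nonneg (hc k i) hQ.le
          simp only [hf]
          split_ifs
          · constructor <;> nlinarith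
          · constructor <;> nlinarith
          · simp) (by
          intro i
          have h3 := hmean k i
          simp only [mul_neg, Finset.sum_neg_distrib]
          rw [h3, neg_zero]) (hs2 k) (mul_pos (pow_pos hQ 2) (hsg k)) hv.le
      have h3 : Pr mu (fun w => v + t * thr < |∑ i ∈ I, c k i * (Q * (r w i : ℝ) - lam i)|)
          ≤ Pr mu (fun w => v ≤ ∑ i, f k i (w i) ∨ v ≤ ∑ i, -(f k i (w i))) := by
        apply Pr_mono hW
        intro w hw
        have h4 := htest k w
        have h5 : v < |∑ i, f k i (w i)| := by linarith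
        rcases lt_abs.1 h5 with h6 | h6
        · exact Or.inl h6.le
        · right
          rw [Finset.sum_neg_distrib]
          exact h6.le
      refine h3.trans ((Pr_or hW _ _).trans ?_)
      linarith
    · apply le_of_eq
      apply Pr_false
      intro w hw
      have h4 := htest k w
      have h5 : ∑ i, f k i (w i) = 0 := by
        apply Finset.sum_eq_zero
        intro i _
        simp only [hf]
        split_ifs with ha
        · have : c k i = 0 := by
            by_contra h6
            exact hk ⟨i, ha.1, h6, ha.2⟩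
          rw [this]; ring
        · have : c k i = 0 := by
            by_contra h6
            exact hk ⟨i, ha.1, h6, ha.2⟩
          rw [this]; ring
        · rfl
      rw [h5, abs_zero] at h4
      linarith
  -- the good outcome
  obtain ⟨w, hw⟩ := exists_le_Ex hW (fun w => ∑ i ∈ I, cst κ (r w i)
    + ∑ k, pen k * (if v + t * thr < |∑ i ∈ I, c k i * (Q * (r w i : ℝ) - lam i)| then 1 else 0))
  refine ⟨r w, ?_, herr w, ?_⟩
  · intro i hi
    have : ¬ act i := fun h => hi h.1
    simp only [hr, this, if_false]
  · have e1 : ∑ k ∈ univ.filter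
        (fun k => v + t * thr < |∑ i ∈ I, c k i * (Q * (r w i : ℝ) - lam i)|), pen k
        = ∑ k, pen k * (if v + t * thr < |∑ i ∈ I, c k i * (Q * (r w i : ℝ) - lam i)|
          then 1 else 0) := by
      rw [Finset.sum_filter]
      refine Finset.sum_congr rfl fun k _ => ?_
      split_ifs <;> simp
    rw [e1]
    refine hw.trans ?_
    rw [Ex_add, Ex_sum, Ex_sum]
    refine add_le_add (Finset.sum_le_sum hcost) ?_
    rw [Finset.sum_filter]
    refine Finset.sum_le_sum fun k _ => ?_
    rw [Ex_mul_left]
    have h1 := mul_le_mul_of_nonneg_left (hprob k) (hpen k)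
    refine h1.trans (le_of_eq ?_)
    split_ifs <;> simp

end Pool.Agent.Helper50.BL
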