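import Pool.Agent.Helper50.BL.Stmts
import Pool.Agent.Helper50.BL.Base

namespace Pool.Agent.Helper50.BL

open Finset
open scoped Classical

theorem rnf_card {V J : Type} [DecidableEq V] [Fintype J] (S : J → Finset V) (Z : Finset J)
    (t : ℕ) (hD : Deg S t) (x : V) :
    ∑ i ∈ Z, (if x ∈ S i then (1 : ℝ) else 0) ≤ t := by
  rw [Finset.sum_ite, Finset.sum_const_zero, add_zero, Finset.sum_const, nsmul_eq_mul, mul_one]
  have h1 : #(Z.filter (fun i => x ∈ S i)) ≤ #(univ.filter (fun i => x ∈ S i)) :=
    Finset.card_le_card (Finset.filter_subset_filter _ (Finset.subset_univ Z))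
  exact_mod_cast h1.trans (hD x)

theorem st_RNF (hR : ST_RND) : ST_RNF := by
  intro V J _ _ _ _ S Z lam t K κ Ag h ht hD hK hK0 hκ hAg hh hKe
  have ht1 : (1 : ℝ) ≤ t := by exact_mod_cast ht
  have hthr : 0 < h / (64 * t * Ag) := by positivity
  have hthrQ : h / (64 * t * Ag) ≤ h / Ag := by
    apply div_le_div_of_nonneg_left hh.le (by linarith)
    nlinarith
  obtain ⟨r, h1, h2, h3⟩ := hR J V Z lam (h / Ag) (h / (64 * t * Ag)) κ t (h / 8)
    (fun x i => if x ∈ S i then 1 else 0) (fun _ => t) (fun _ => 1) hthr hthrQ hκ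
    (by positivity) (by positivity) (fun _ => by positivity)
    (fun x i => by split_ifs <;> norm_num)
    (fun x => by
      have e : ∀ i ∈ Z, (if x ∈ S i then (1 : ℝ) else 0) ^ 2 = if x ∈ S i then 1 else 0 := by
        intro i _
        split_ifs <;> norm_num
      rw [Finset.sum_congr rfl e]
      exact rnf_card S Z t hD x)
    (fun x => rnf_card S Z t hD x) (fun _ => by norm_num)
  refine ⟨r, h1, ?_⟩
  have hexp : 2 * (h / 8) ^ 2 / ((h / Ag) ^ 2 * t) = Ag ^ 2 / (32 * t) := by
    field_simp
    norm_num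
  have e2 : ∀ x, ∑ i ∈ Z.filter (fun i => x ∈ S i), (h / Ag * (r i : ℝ) - lam i)
      = ∑ i ∈ Z, (if x ∈ S i then (1 : ℝ) else 0) * (h / Ag * (r i : ℝ) - lam i) := by
    intro x
    rw [Finset.sum_filter]
    refine Finset.sum_congr rfl fun i _ => ?_
    split_ifs <;> simp
  have e3 : (#(univ.filter (fun x => 9 * h / 64
            < |∑ i ∈ Z.filter (fun i => x ∈ S i), (h / Ag * (r i : ℝ) - lam i)|)) : ℝ)
      ≤ ∑ k ∈ univ.filter (fun k => h / 8 + t * (h / (64 * t * Ag))
        < |∑ i ∈ Z, (if k ∈ S i then (1 : ℝ) else 0) * (h / Ag * (r i : ℝ) - lam i)|), (1 : ℝ) := by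
    rw [Finset.sum_const, nsmul_eq_mul, mul_one]
    have : t * (h / (64 * t * Ag)) ≤ h / 64 := by
      have e : t * (h / (64 * t * Ag)) = h / 64 / Ag := by field_simp
      rw [e]
      exact div_le_self (by positivity) hAg
    have h4 : #(univ.filter (fun x => 9 * h / 64
            < |∑ i ∈ Z.filter (fun i => x ∈ S i), (h / Ag * (r i : ℝ) - lam i)|))
        ≤ #(univ.filter (fun k => h / 8 + t * (h / (64 * t * Ag))
        < |∑ i ∈ Z, (if k ∈ S i then (1 : ℝ) else 0) * (h / Ag * (r i : ℝ) - lam i)|)) := by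
      apply Finset.card_le_card
      intro x hx
      rw [Finset.mem_filter] at hx ⊢
      refine ⟨hx.1, ?_⟩
      rw [← e2 x]
      linarith [hx.2]
    exact_mod_cast h4
  refine (add_le_add le_rfl e3).trans (h3.trans ?_)
  simp only [hexp]
  set ε := Real.exp (-(Ag ^ 2 / (32 * (t : ℝ)))) with hε
  have hε0 : 0 < ε := Real.exp_pos _
  have h5 : ∑ k ∈ univ.filter (fun k => ∃ i ∈ Z, (if k ∈ S i then (1 : ℝ) else 0) ≠ 0 ∧
      h / (64 * t * Ag) ≤ |lam i|), 1 * (2 * ε)
      ≤ ∑ i ∈ Z, if |lam i| < h / (64 * t * Ag) then 0 else 2 / K := by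
    rw [Finset.sum_filter]
    calc ∑ k : V, (if (∃ i ∈ Z, (if k ∈ S i then (1 : ℝ) else 0) ≠ 0 ∧
          h / (64 * t * Ag) ≤ |lam i|) then 1 * (2 * ε) else 0)
        ≤ ∑ k : V, ∑ i ∈ Z, (if k ∈ S i then
            (if |lam i| < h / (64 * t * Ag) then 0 else 2 * ε) else 0) := by
          refine Finset.sum_le_sum fun k _ => ?_
          have hnn : ∀ i ∈ Z, (0 : ℝ) ≤ (if k ∈ S i then
            (if |lam i| < h / (64 * t * Ag) then 0 else 2 * ε) else 0) := by
            intro i _
            split_ifs <;> linarith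
          split_ifs with hk
          · obtain ⟨i, hi, h6, h7⟩ := hk
            have h8 : k ∈ S i := by
              by_contra h8
              exact h6 (if_neg h8)
            have h9 := Finset.single_le_sum hnn hi
            simp only [h8, if_true, not_lt.2 h7, if_false] at h9
            linarith
          · exact Finset.sum_nonneg hnn
      _ = ∑ i ∈ Z, ∑ k : V, (if k ∈ S i then
            (if |lam i| < h / (64 * t * Ag) then 0 else 2 * ε) else 0) := Finset.sum_comm
      _ ≤ _ := by
          refine Finset.sum_le_sum fun i hi => ?_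
          rw [← Finset.sum_filter]
          have e4 : univ.filter (fun k => k ∈ S i) = S i := by ext; simp
          rw [e4, Finset.sum_const, nsmul_eq_mul]
          split_ifs
          · simp
          · have h6 := hK i hi
            have h7 : K * ε ≤ 1 / K := by
              rw [le_div_iff₀ hK0]
              nlinarith
            have h8 : (#(S i) : ℝ) * (2 * ε) ≤ K * (2 * ε) :=
              mul_le_mul_of_nonneg_right h6 (by linarith)
            have h9 : 2 / K = 2 * (1 / K) := by ring
            rw [h9]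
            linarith
  refine (add_le_add le_rfl h5).trans ?_
  rw [← Finset.sum_add_distrib]
  refine Finset.sum_le_sum fun i _ => ?_
  unfold E1f
  split_ifs with h6
  · unfold e1
    rw [if_pos h6, add_zero]
  · exact le_rfl

end Pool.Agent.Helper50.BL
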